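import Pool.Agent.Helper80.EC_F.Goals

/-! MP_ecc237_nt, Part F, packet TU. -/

set_option autoImplicit false

open MeasureTheory Filter Topology Set

namespace EC237.PF.PkTU

theorem alg (a1 a2 a4 X1 X2 X4 f : ℝ) (h1 : 54 * X1 = (a1 + 2 * a2) ^ 2 * (a1 - a2))
    (h2 : 54 * X2 = (a2 + 2 * a4) ^ 2 * (a2 - a4))
    (h4 : 108 * X4 = (a2 + 2 * a4) * (a2 - a4) ^ 2)
    (hf : f = (4 * a4 ^ 2 - a2 ^ 2) * (a2 ^ 2 - a4 ^ 2) / 36)
    (h : (a1 - a4) ^ 2 = 3 * (a2 ^ 2 - a4 ^ 2)) :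
    -2 * a4 * X1 + 10 * a2 * X2 + a1 * (2 * X1 - 6 * X2 - 8 * X4) =
      104 / 5 * (a2 * X2) - 64 / 5 * (a4 * X4) - 24 / 5 * f := by
  have e1 : X1 = (a1 + 2 * a2) ^ 2 * (a1 - a2) / 54 := by linarith
  have e2 : X2 = (a2 + 2 * a4) ^ 2 * (a2 - a4) / 54 := by linarith
  have e4 : X4 = (a2 + 2 * a4) * (a2 - a4) ^ 2 / 108 := by linarith
  rw [e1, e2, e4, hf]
  linear_combination (1 / 27) * (a1 ^ 2 + (3 * a2 + a4) * a1 + 3 * a2 ^ 2 + 3 * a2 * a4 -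
    2 * a4 ^ 2) * h

/-- TU. -/
theorem thm (h1 : G_PAR) (h2 : EC237.C11a) (h3 : EC237.C11b) (h4 : EC237.C17) (h5 : EC237.C18)
    (h6 : EC237.C20a) : EC237.PF.G_TU := by
  intro y hy Q hQ
  have hpi := Real.pi_pos
  have hQ0 : 0 ≤ Q := by rw [hQ]; exact (Real.exp_pos _).le
  have hQ1 : Q < 1 := by
    rw [hQ, Real.exp_lt_one_iff]
    have := mul_pos hpi hy
    linarith
  have hp : ∀ k : ℕ, k ≠ 0 → 0 ≤ Q ^ k ∧ Q ^ k < 1 := fun k hk =>
    ⟨pow_nonneg hQ0 k, pow_lt_one₀ hQ0 hQ1 hk⟩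
  set q' : ℝ := Real.exp (-(Real.pi / (3 * y))) with hq'
  have hpar := h1 y hy Q q' hQ rfl
  -- the transformation
  have t1 : aS q' = 2 * Real.sqrt 3 * y * aS (Q ^ 4) := by
    have h := h6 (2 * y) (by positivity)
    have e1 : Real.exp (-(2 * Real.pi / (3 * (2 * y)))) = q' := by
      rw [hq']
      congr 2
      field_simp
    have e2 : Real.exp (-(2 * Real.pi * (2 * y))) = Q ^ 4 := by
      rw [hQ, ← Real.exp_nat_mul]
      congr 1
      push_cast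
      ring
    rw [e1, e2] at h
    rw [h]
    ring
  have t2 : aS (q' ^ 2) = Real.sqrt 3 * y * aS (Q ^ 2) := by
    have h := h6 y hy
    have e1 : Real.exp (-(2 * Real.pi / (3 * y))) = q' ^ 2 := by
      rw [hq', ← Real.exp_nat_mul]
      congr 1
      push_cast
      ring
    have e2 : Real.exp (-(2 * Real.pi * y)) = Q ^ 2 := by
      rw [hQ, ← Real.exp_nat_mul]
      congr 1
      push_cast
      ring
    rw [e1, e2] at h
    exact h
  have t4 : aS (q' ^ 4) = Real.sqrt 3 * (y / 2) * aS Q := by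
    have h := h6 (y / 2) (by positivity)
    have e1 : Real.exp (-(2 * Real.pi / (3 * (y / 2)))) = q' ^ 4 := by
      rw [hq', ← Real.exp_nat_mul]
      congr 1
      push_cast
      field_simp
      norm_num
    have e2 : Real.exp (-(2 * Real.pi * (y / 2))) = Q := by
      rw [hQ]
      congr 1
      ring
    rw [e1, e2] at h
    exact h
  -- the algebra
  have c1 := h2 Q hQ0 hQ1
  have c2 := h2 (Q ^ 2) (hp 2 (by norm_num)).1 (hp 2 (by norm_num)).2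
  have c4 := h3 (Q ^ 2) (hp 2 (by norm_num)).1 (hp 2 (by norm_num)).2
  have cf := h4 y hy
  have c8 := h5 Q hQ0 hQ1
  have e22 : (Q ^ 2) ^ 2 = Q ^ 4 := by ring
  have e2 : Real.exp (-(2 * Real.pi * y)) = Q ^ 2 := by
    rw [hQ, ← Real.exp_nat_mul]
    congr 1
    push_cast
    ring
  have e4 : Real.exp (-(4 * Real.pi * y)) = Q ^ 4 := by
    rw [hQ, ← Real.exp_nat_mul]
    congr 1
    push_cast
    ring
  rw [e22] at c2 c4
  rw [e2, e4] at cf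
  have hU := alg (aS Q) (aS (Q ^ 2)) (aS (Q ^ 4)) (XS Q) (XS (Q ^ 2)) (XS (Q ^ 4)) (ff y) c1 c2 c4
    cf c8
  have h3s : Real.sqrt 3 * Real.sqrt 3 = 3 := Real.mul_self_sqrt (by norm_num)
  rw [hpar, t1, t2, t4]
  linear_combination (y / 4) * hU + (y / 12) * (-2 * aS (Q ^ 4) * XS Q +
    10 * aS (Q ^ 2) * XS (Q ^ 2) + aS Q * (2 * XS Q - 6 * XS (Q ^ 2) - 8 * XS (Q ^ 4))) * h3s

end EC237.PF.PkTU
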